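import Pool.Agent.Helper79.WLK.One

/-! Boxes with one more flat coordinate: coordinates which satisfy the relation of a flat coordinate for all pairs of
points of a box are UNTILTED (a polynomial in the displacement of the base point with coefficients known to the box). -/

set_option autoImplicit false
set_option linter.unusedSectionVars false

namespace Pool.Agent.Helper16.THA

open Finset Filter Topology Pool.Agent.Helper69.RK Pool.Agent.Helper31.EC Pool.Agent.Helper31.EC.Sp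
open Pool.Agent.Helper31.EC.QS Pool.Agent.Helper57.TA Pool.Agent.Helper21.DO Pool.Agent.Helper38.NS
open Pool.Agent.Helper79.JET Pool.Agent.Helper79.WLK

noncomputable section

section alg

variable {A : Type*} [CommRing A] {β : Type*}

/-- shifts by opposite vectors cancel -/
theorem sh_sh_zero (x y : β → A) (h : ∀ a, x a + y a = 0) (P : MvPolynomial β A) : sh x (sh y P) = P := by
  induction P using MvPolynomial.induction_on with
  | C a =>
    unfold sh
    rw [MvPolynomial.aeval_C, MvPolynomial.algebraMap_eq, MvPolynomial.aeval_C, MvPolynomial.algebraMap_eq]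
  | add p q hp hq =>
    unfold sh at hp hq ⊢
    rw [map_add, map_add, hp, hq]
  | mul_X p a hp =>
    unfold sh at hp ⊢
    rw [map_mul, map_mul, hp, MvPolynomial.aeval_X, map_add, MvPolynomial.aeval_C, MvPolynomial.algebraMap_eq,
      MvPolynomial.aeval_X]
    congr 1
    have h1 : (MvPolynomial.C (y a) : MvPolynomial β A) + (MvPolynomial.C (x a) + MvPolynomial.X a) =
        MvPolynomial.C (x a + y a) + MvPolynomial.X a := by
      rw [map_add]
      ring
    rw [h1, h a, map_zero, zero_add]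

theorem sh_coeff_zero (x : β → A) (P : MvPolynomial β A) : (sh x P).coeff 0 = MvPolynomial.eval x P := by
  rw [coeff_zero_eval, sh_eval]
  congr 1
  congr 1
  funext a
  rw [add_zero]

theorem sh_sub (x : β → A) (P Q : MvPolynomial β A) : sh x (P - Q) = sh x P - sh x Q := by
  unfold sh
  rw [map_sub]

end alg

variable {S : Sp}

/-- products of small functions, all exponents -/
theorem mul_mem_all {f g : QS S} {r s : ℝ} (hf : f ∈ Id S r) (hg : g ∈ Id S s) : f * g ∈ Id S (r + s) := by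
  rcases le_total 0 r with hr | hr
  · rcases le_total 0 s with hs | hs
    · exact mul_mem_Id hr hs hf hg
    · exact Id_mono (by linarith) (Ideal.mul_mem_right _ _ hf)
  · exact Id_mono (by linarith) (Ideal.mul_mem_left _ _ hg)

section fil

variable {β : Type} [Fintype β]

theorem wgt_zero {σ : Type} [Fintype σ] (wt : σ → ℝ) : wgt wt 0 = 0 := by
  unfold wgt
  apply Finset.sum_eq_zero
  intro a _
  rw [Finsupp.zero_apply, Nat.cast_zero, zero_mul]

/-- the coefficient of the monomial `n` is small of order `u - |n| s` -/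
def Fil (s u : ℝ) (Q : MvPolynomial β (QS S)) : Prop := ∀ n, Q.coeff n ∈ Id S (u - wgt (fun _ => 1) n * s)

theorem Fil.sub {s u : ℝ} {P Q : MvPolynomial β (QS S)} (hP : Fil s u P) (hQ : Fil s u Q) : Fil s u (P - Q) := by
  intro n
  rw [MvPolynomial.coeff_sub]
  exact (Id S _).sub_mem (hP n) (hQ n)

theorem Fil.sum {s u : ℝ} {τ : Type*} {F : Finset τ} {P : τ → MvPolynomial β (QS S)}
    (h : ∀ i ∈ F, Fil s u (P i)) : Fil s u (∑ i ∈ F, P i) := by
  intro n
  rw [MvPolynomial.coeff_sum]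
  exact (Id S _).sum_mem fun i hi => h i hi n

theorem Fil.mul {s u v : ℝ} {P Q : MvPolynomial β (QS S)} (hP : Fil s u P) (hQ : Fil s v Q) :
    Fil s (u + v) (P * Q) := by
  classical
  intro n
  rw [MvPolynomial.coeff_mul]
  apply (Id S _).sum_mem
  rintro ⟨a, b⟩ hab
  rw [Finset.HasAntidiagonal.mem_antidiagonal] at hab
  have h1 := mul_mem_all (hP a) (hQ b)
  have h2 : u - wgt (fun _ => 1) a * s + (v - wgt (fun _ => 1) b * s) = u + v - wgt (fun _ => 1) n * s := by
    rw [← hab, wgt_add]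
    ring
  rw [h2] at h1
  exact h1

theorem Fil.C {s u : ℝ} {c : QS S} (hc : c ∈ Id S u) : Fil s u (MvPolynomial.C c : MvPolynomial β (QS S)) := by
  classical
  intro n
  rw [MvPolynomial.coeff_C]
  split_ifs with h
  · rw [← h, wgt_zero, zero_mul, sub_zero]
    exact hc
  · exact Ideal.zero_mem _

theorem Fil.X {s : ℝ} (a : β) : Fil s s (MvPolynomial.X a : MvPolynomial β (QS S)) := by
  classical
  intro n
  rw [MvPolynomial.coeff_X]
  split_ifs with h
  · rw [← h, wgt_single, one_mul, sub_self]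
    exact mem_Id_nonpos le_rfl
  · exact Ideal.zero_mem _

theorem Fil.add {s u : ℝ} {P Q : MvPolynomial β (QS S)} (hP : Fil s u P) (hQ : Fil s u Q) : Fil s u (P + Q) := by
  intro n
  rw [MvPolynomial.coeff_add]
  exact (Id S _).add_mem (hP n) (hQ n)

theorem Fil.one {s : ℝ} : Fil s 0 (1 : MvPolynomial β (QS S)) := by
  rw [← MvPolynomial.C_1]
  exact Fil.C (mem_Id_nonpos le_rfl)

theorem Fil.pow {s u : ℝ} {P : MvPolynomial β (QS S)} (h : Fil s u P) (k : ℕ) : Fil s (k * u) (P ^ k) := by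
  induction k with
  | zero =>
    rw [pow_zero, Nat.cast_zero, zero_mul]
    exact Fil.one
  | succ k ih =>
    rw [pow_succ]
    have h1 := ih.mul h
    have h2 : (k : ℝ) * u + u = ((k + 1 : ℕ) : ℝ) * u := by
      push_cast
      ring
    rw [h2] at h1
    exact h1

theorem Fil.prod {s : ℝ} {τ : Type*} (F : Finset τ) {u : τ → ℝ} {P : τ → MvPolynomial β (QS S)}
    (h : ∀ i, Fil s (u i) (P i)) : Fil s (∑ i ∈ F, u i) (∏ i ∈ F, P i) := by
  classical
  induction F using Finset.induction_on with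
  | empty =>
    rw [Finset.sum_empty, Finset.prod_empty]
    exact Fil.one
  | insert a F ha ih =>
    rw [Finset.sum_insert ha, Finset.prod_insert ha]
    exact (h a).mul ih

/-- small polynomials with a new origin -/
theorem Fil.sh {s v : ℝ} {x : β → QS S} (hx : ∀ a, x a ∈ Id S s) {P : MvPolynomial β (QS S)} (h : Fil s v P) :
    Fil s v (Helper79.WLK.sh x P) := by
  unfold Helper79.WLK.sh
  rw [MvPolynomial.aeval_def, MvPolynomial.eval₂_eq']
  apply Fil.sum
  intro m _
  rw [MvPolynomial.algebraMap_eq]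
  have h1 : Fil s (v - wgt (fun _ => 1) m * s) (MvPolynomial.C (P.coeff m) : MvPolynomial β (QS S)) := Fil.C (h m)
  have h2 : Fil s (∑ i, (m i : ℝ) * s) (∏ i, (MvPolynomial.C (x i) + MvPolynomial.X i) ^ m i) :=
    Fil.prod Finset.univ fun i => ((Fil.C (hx i)).add (Fil.X i)).pow (m i)
  have h3 := h1.mul h2
  have h4 : v - wgt (fun _ => 1) m * s + ∑ i, (m i : ℝ) * s = v := by
    unfold wgt
    rw [Finset.sum_mul]
    have h5 : ∑ i, (m i : ℝ) * 1 * s = ∑ i, (m i : ℝ) * s := by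
      apply Finset.sum_congr rfl
      intro i _
      rw [mul_one]
    rw [h5]
    ring
  rw [h4] at h3
  exact h3

end fil

section core

variable {β κ ι : Type} [Fintype β] [Fintype κ] [Fintype ι] {q q0 : β → QS S} {R : κ → QS S}
  {Q : κ → MvPolynomial β (QS S)} {wt : β ⊕ κ → ℝ} {g : ι → QS S} {s w : ℝ} {f : QS S} {J : MvPolynomial β (QS S)}

/-- the displacement polynomial of `f` with origin at the centre `q0` -/
def Ps (q q0 : β → QS S) (f : QS S) (J : MvPolynomial β (QS S)) : MvPolynomial β (QS S) :=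
  sh (fun b => -(q b - q0 b)) (MvPolynomial.C f + J)

/-- value of the displacement polynomials at a further point with the same centre -/
theorem Ps_eval {W : Sp} (P P2 : Pj W S) (hc : ∀ b, P.qs (q0 b) = P2.qs (q0 b)) :
    MvPolynomial.eval (fun b => P2.qs (q b - q0 b)) (MvPolynomial.map P.qs (Ps q q0 f J)) =
      P.qs f + MvPolynomial.eval (fun b => P2.qs (q b) - P.qs (q b)) (MvPolynomial.map P.qs J) := by
  unfold Ps
  rw [map_sh, sh_eval, map_add, MvPolynomial.map_C, map_add, MvPolynomial.eval_C]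
  congr 3
  funext b
  rw [map_neg, map_sub, map_sub, hc b]
  ring

/-- STEP 1: the coefficients of the displacement polynomials of two points of one box -/
theorem step1 (hb : LB q R Q wt g s) (hs : 0 ≤ s) (hwt : ∀ a, 0 ≤ wt a) (hw1 : ∀ b, wt (Sum.inl b) = 1)
    (h1 : ∀ a, wt a * s < 1) (hws : w * s ≤ 1) (hq0 : ∀ b, q b - q0 b ∈ Id S s)
    (hc0 : ∀ (W : Sp) (P0 P1 : Pj W S), (∀ i, P0.qs (g i) = P1.qs (g i)) → ∀ b, P0.qs (q0 b) = P1.qs (q0 b))
    (hrel : ∀ (W : Sp) (P0 P1 : Pj W S), (∀ i, P0.qs (g i) = P1.qs (g i)) → P1.qs f - P0.qs f -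
      MvPolynomial.eval (fun b => P1.qs (q b) - P0.qs (q b)) (MvPolynomial.map P0.qs J) ∈ Id W (w * s))
    {W : Sp} (P0 P1 : Pj W S) (hc : ∀ i, P0.qs (g i) = P1.qs (g i)) :
    Fil s (w * s) (MvPolynomial.map P1.qs (Ps q q0 f J) - MvPolynomial.map P0.qs (Ps q q0 f J)) := by
  classical
  obtain ⟨ℓ, hℓ, hℓ1, hℓw⟩ := Pool.Agent.Helper79.WLK.exists_ell hwt hs h1
  obtain ⟨D, r, P2, ξ, c1, _, hξ, _, _, hR⟩ := hb.fresh hs hwt hℓ.le hℓw g le_rfl P1
  have k12 : ∀ i, (r.comp P1).qs (g i) = P2.qs (g i) := by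
    intro i
    rw [Pj.comp_qs]
    exact c1 i
  have k02 : ∀ i, (r.comp P0).qs (g i) = P2.qs (g i) := by
    intro i
    rw [Pj.comp_qs, hc]
    exact c1 i
  obtain ⟨B, hB⟩ := exists_know (Ps q q0 f J)
  obtain ⟨A, hA⟩ : ∃ A : W.L, A = P0.map B ⊔ (P1.map B ⊔ P1.map (vd (fun b => q b - q0 b) 1)) := ⟨_, rfl⟩
  have hA0 : (r.comp P0).map B ≤ r.map A := by
    rw [Pj.comp_map, hA]
    exact Pj.map_mono _ le_sup_left
  have hA1 : (r.comp P1).map B ≤ r.map A := by
    rw [Pj.comp_map, hA]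
    exact Pj.map_mono _ (le_sup_left.trans le_sup_right)
  have hA2 : ∀ b, dg ((r.comp P1).qs (q b - q0 b)) 1 ≤ r.map A := by
    intro b
    rw [Pj.qs_dg, Pj.comp_map, hA]
    exact Pj.map_mono _ ((Pj.map_mono _ (dg_le_vd (fun b => q b - q0 b) 1 b)).trans
      (le_sup_right.trans le_sup_right))
  obtain ⟨x, hx⟩ : ∃ x : β → QS D, x = fun b => (r.comp P1).qs (q b - q0 b) := ⟨_, rfl⟩
  obtain ⟨F0, hF0⟩ : ∃ F : MvPolynomial β (QS D), F = MvPolynomial.map (r.comp P0).qs (Ps q q0 f J) := ⟨_, rfl⟩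
  obtain ⟨F1, hF1⟩ : ∃ F : MvPolynomial β (QS D), F = MvPolynomial.map (r.comp P1).qs (Ps q q0 f J) := ⟨_, rfl⟩
  have hF0k : F0 ∈ PK (r.map A) := by
    rw [hF0]
    exact PK_mono hA0 (map_PK _ hB)
  have hF1k : F1 ∈ PK (r.map A) := by
    rw [hF1]
    exact PK_mono hA1 (map_PK _ hB)
  have hxk : ∀ b, dg (x b) 1 ≤ r.map A := by
    intro b
    rw [hx]
    exact hA2 b
  have hQk : Helper79.WLK.sh x (F1 - F0) ∈ PK (r.map A) :=
    sbs_PK ((PK _).sub_mem hF1k hF0k) fun b => (PK _).add_mem (C_mem (hxk b)) (X_mem _ b)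
  have hev : MvPolynomial.eval (fun b => sc D (1 * s) * ξ (Sum.inl b)) (Helper79.WLK.sh x (F1 - F0)) ∈
      Id D (w * s) := by
    rw [sh_eval]
    have e1 : (fun b => x b + sc D (1 * s) * ξ (Sum.inl b)) = fun b => P2.qs (q b - q0 b) := by
      funext b
      have e2 := hξ (Sum.inl b)
      rw [hw1 b] at e2
      have e3 : bc (r.comp P1) P2 q R Q (Sum.inl b) = P2.qs (q b) - (r.comp P1).qs (q b) := rfl
      rw [← e2, e3, hx]
      show (r.comp P1).qs (q b - q0 b) + _ = _
      rw [map_sub, map_sub, hc0 D _ _ k12 b]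
      ring
    rw [e1, map_sub, hF1, hF0, Ps_eval _ _ (hc0 D _ _ k12), Ps_eval _ _ (hc0 D _ _ k02)]
    have h3 := (Id D (w * s)).sub_mem (hrel D _ _ k02) (hrel D _ _ k12)
    refine (congrArg (· ∈ Id D (w * s)) ?_).mp h3
    ring
  have hξ' : Rt ℓ (fun b => ξ (Sum.inl b)) (r.map A) := (hR A).comp hℓ.le Sum.inl Sum.inl_injective
  have h2 : Fil s (w * s) (Helper79.WLK.sh x (F1 - F0)) := fun n =>
    small_raw (wt := fun _ => (1 : ℝ)) (fun _ => zero_le_one) hs hℓ hℓ1 hξ' hws le_rfl (PKr_of_PK le_rfl hQk) hev n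
  have h3 : Fil s (w * s) (F1 - F0) := by
    have h4 := h2.sh (x := fun b => -x b) fun b => by
      refine (Ideal.neg_mem_iff _).mpr ?_
      rw [hx]
      exact qs_Id _ (hq0 b)
    rw [sh_sh_zero _ _ (fun a => neg_add_cancel (x a))] at h4
    exact h4
  intro n
  have hle : w * s - wgt (fun _ => (1 : ℝ)) n * s ≤ 1 := by
    have := mul_nonneg (wgt_nonneg (fun _ => zero_le_one) n) hs
    linarith
  rw [← r.qs_mem_Id hle, ← MvPolynomial.coeff_map, map_sub, map_pj_comp, map_pj_comp, ← hF1, ← hF0]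
  exact h3 n

/-- UNTILTED: from the relation for all pairs of points of the box -/
theorem untilt (hb : LB q R Q wt g s) (hs : 0 ≤ s) (hwt : ∀ a, 0 ≤ wt a) (hw1 : ∀ b, wt (Sum.inl b) = 1)
    (h1 : ∀ a, wt a * s < 1) (hws : w * s ≤ 1) (hq0 : ∀ b, q b - q0 b ∈ Id S s)
    (hc0 : ∀ (W : Sp) (P0 P1 : Pj W S), (∀ i, P0.qs (g i) = P1.qs (g i)) → ∀ b, P0.qs (q0 b) = P1.qs (q0 b))
    (hJ0 : J.coeff 0 = 0)
    (hrel : ∀ (W : Sp) (P0 P1 : Pj W S), (∀ i, P0.qs (g i) = P1.qs (g i)) → P1.qs f - P0.qs f -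
      MvPolynomial.eval (fun b => P1.qs (q b) - P0.qs (q b)) (MvPolynomial.map P0.qs J) ∈ Id W (w * s)) :
    ∃ Ψ : MvPolynomial β (QS S), Ψ ∈ PK (vd g 1) ∧
      f - MvPolynomial.eval (fun b => q b - q0 b) Ψ ∈ Id S (w * s) ∧
      ∀ n, n ≠ 0 → (Helper79.WLK.sh (fun b => q b - q0 b) Ψ).coeff n - J.coeff n ∈
        Id S ((w - wgt (fun _ => 1) n) * s) := by
  classical
  have hstep := fun (W : Sp) (P0 P1 : Pj W S) hc => step1 (J := J) (f := f) (w := w) hb hs hwt hw1 h1 hws hq0 hc0 hrel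
    (W := W) P0 P1 hc
  have hround : ∀ n : β →₀ ℕ, ∃ b : QS S, dg b 1 ≤ vd g 1 ∧
      (Ps q q0 f J).coeff n - b ∈ Id S (w * s - wgt (fun _ => 1) n * s) := by
    intro n
    have hn := mul_nonneg (wgt_nonneg (wt := fun _ => (1 : ℝ)) (fun _ => zero_le_one) n) hs
    rcases le_total 0 (w * s - wgt (fun _ => 1) n * s) with h0 | h0
    · obtain ⟨D, r, P2, hc, hi⟩ := exists_third (Pj.id S) g
      have hle : w * s - wgt (fun _ => (1 : ℝ)) n * s ≤ 1 := by linarith
      have h2 := hstep D r P2 (fun i => by rw [← hc i, Pj.id_qs]) n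
      rw [MvPolynomial.coeff_sub, MvPolynomial.coeff_map, MvPolynomial.coeff_map] at h2
      have h3 := dg_eq_of_sub_mem h2 le_rfl hle
      rw [Pj.qs_dg, Pj.qs_dg] at h3
      have h4 : P2.map (dg ((Ps q q0 f J).coeff n) (w * s - wgt (fun _ => 1) n * s)) ≤ P2.map (vd g 1) := by
        refine le_of_markov ?_ le_sup_left (hi (dg ((Ps q q0 f J).coeff n) (w * s - wgt (fun _ => 1) n * s))
          (dg ((Ps q q0 f J).coeff n) (w * s - wgt (fun _ => 1) n * s)))
        rw [h3]
        exact le_sup_left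
      rw [Pj.map_le] at h4
      obtain ⟨b, hb1, hb2⟩ := exists_round ((Ps q q0 f J).coeff n) h0 hle
      exact ⟨b, hb1.trans h4, hb2⟩
    · exact ⟨0, (Kn S 1 le_rfl _).zero_mem, mem_Id_nonpos h0⟩
  choose b hbk hbc using hround
  obtain ⟨Ψ, hΨ⟩ : ∃ Ψ : MvPolynomial β (QS S),
      Ψ = ∑ n ∈ (Ps q q0 f J).support, MvPolynomial.monomial n (b n) := ⟨_, rfl⟩
  have hco : ∀ n, Ψ.coeff n = if n ∈ (Ps q q0 f J).support then b n else 0 := by
    intro n
    rw [hΨ, MvPolynomial.coeff_sum]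
    simp only [MvPolynomial.coeff_monomial]
    rw [Finset.sum_ite_eq' (Ps q q0 f J).support n]
  have hΨk : Ψ ∈ PK (vd g 1) := by
    intro n
    rw [hco]
    split_ifs
    · exact hbk n
    · exact (Kn S 1 le_rfl _).zero_mem
  have hfil : Fil s (w * s) (Ps q q0 f J - Ψ) := by
    intro n
    rw [MvPolynomial.coeff_sub, hco]
    split_ifs with hn
    · exact hbc n
    · rw [MvPolynomial.notMem_support_iff.mp hn, sub_zero]
      exact Ideal.zero_mem _
  have hsh := hfil.sh hq0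
  rw [sh_sub] at hsh
  have hP : Helper79.WLK.sh (fun b => q b - q0 b) (Ps q q0 f J) = MvPolynomial.C f + J :=
    sh_sh_zero _ _ (fun b => add_neg_cancel (q b - q0 b)) _
  rw [hP] at hsh
  refine ⟨Ψ, hΨk, ?_, ?_⟩
  · have h2 := hsh 0
    rw [MvPolynomial.coeff_sub, MvPolynomial.coeff_add, MvPolynomial.coeff_zero_C, hJ0, add_zero, sh_coeff_zero,
      wgt_zero, zero_mul, sub_zero] at h2
    exact h2
  · intro n hn
    have h2 := (Ideal.neg_mem_iff _).mpr (hsh n)
    rw [MvPolynomial.coeff_sub, MvPolynomial.coeff_add, MvPolynomial.coeff_C, if_neg (Ne.symm hn), zero_add,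
      neg_sub, ← sub_mul] at h2
    exact h2

end core

end

end Pool.Agent.Helper16.THA
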