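import Pool.Agent.Helper57.THA.St
import Pool.Agent.Helper16.THA.Unt

/-! THEOREM A for corners: the next coordinate is untilted (row OUTU). -/

set_option autoImplicit false
set_option linter.unusedSectionVars false

namespace Pool.Agent.Helper16.THA

open Finset Filter Topology Pool.Agent.Helper69.RK Pool.Agent.Helper31.EC Pool.Agent.Helper31.EC.Sp
open Pool.Agent.Helper31.EC.QS Pool.Agent.Helper57.TA Pool.Agent.Helper13.AM Pool.Agent.Helper57.THA
open Pool.Agent.Helper79.WLK (LB LR sh mkPair)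
open Pool.Agent.Helper38.NS (vd_sum)

noncomputable section

/-- the label with the coefficients of real polynomials has the information of the box -/
theorem vd_gH {S : Sp} {d N r : ℕ} (c : CD S d N r) {w : Fin N → ℝ} {H : HH S d N} (hT : Tri w H) (s : ℝ) :
    vd (gH c H s) 1 = vd (c.G s) 1 := by
  unfold gH
  rw [vd_sum]
  apply sup_eq_left.mpr
  rw [vd_le]
  intro x
  exact (hT.real x.1 x.2.1).trans bot_le

/-- the horizontal displacement of a pair -/
theorem raw_inl {S : Sp} {β κ : Type} [Fintype β] [Fintype κ] {D : Dat S β κ} {s : ℝ} (k : Pair D s) (a : β) :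
    k.raw (Sum.inl a) = k.P1.qs (D.q a) - k.P0.qs (D.q a) := by
  rw [k.dq a]
  show sc _ _ * _ = _
  ring

/-- [OUTU] -/
theorem st_OUTU : ST_OUTU := by
  classical
  intro S d N r c w z ρ hax H hT j s₀ D hs₀ hws₀ hDq hDR hDz hDwt hDw hLB hLR Hn Jn hHn hJn hJw hpair s hs hss
  rcases hs.eq_or_lt with h0 | hs0
  · refine ⟨0, (PK _).zero_mem, ?_, ?_⟩
    · exact mem_Id_nonpos (by rw [← h0, mul_zero])
    · intro n _
      exact mem_Id_nonpos (by rw [← h0, mul_zero])
  have hwz : 1 < w z := hax.w1 z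
  have hzs : w z * s < 1 := (mul_le_mul_of_nonneg_left hss (by linarith)).trans_lt hws₀
  have h1 : ∀ a, D.wt a * s < 1 := by
    rw [hDwt]
    rintro (b | l)
    · show 1 * s < 1
      exact (mul_le_mul_of_nonneg_right hwz.le hs).trans_lt hzs
    · show w l.1 * s < 1
      exact (mul_le_mul_of_nonneg_right (hax.wz l.1) hs).trans_lt hzs
  have hws : D.w * s ≤ 1 := by
    rw [hDw]
    exact (mul_le_mul_of_nonneg_right (hax.wz j) hs).trans hzs.le
  obtain ⟨g, hg⟩ : ∃ g : (Fin (c.m s) ⊕ (Σ j : Fin N, {m // m ∈ (H j).support})) ⊕ {m // m ∈ Hn.support} → QS S,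
      g = Sum.elim (gH c H s) (fun m => Hn.coeff m.1) := ⟨_, rfl⟩
  have hg1 : ∀ i, g (Sum.inl i) = gH c H s i := fun i => by rw [hg]; rfl
  have hg2 : ∀ m, g (Sum.inr m) = Hn.coeff m.1 := fun m => by rw [hg]; rfl
  have hV0 : vd g 1 = vd (gH c H s) 1 := by
    rw [hg, vd_sum]
    apply sup_eq_left.mpr
    rw [vd_le]
    intro m
    exact (hHn m.1).trans bot_le
  have hV : vd g 1 = c.K s := by
    rw [hV0, vd_gH c hT, hax.bx.gen s hs hzs.le]
  have hc1 : ∀ {W : Sp} {P0 P1 : Pj W S}, (∀ i, P0.qs (g i) = P1.qs (g i)) → ∀ i,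
      P0.qs (gH c H s i) = P1.qs (gH c H s i) := by
    intro W P0 P1 hc i
    rw [← hg1 i]
    exact hc _
  have hc2 : ∀ {W : Sp} {P0 P1 : Pj W S}, (∀ i, P0.qs (g i) = P1.qs (g i)) → ∀ m,
      P0.qs (Hn.coeff m) = P1.qs (Hn.coeff m) := by
    intro W P0 P1 hc m
    by_cases hm : m ∈ Hn.support
    · have h2 := hc (Sum.inr ⟨m, hm⟩)
      rw [hg2] at h2
      exact h2
    · rw [MvPolynomial.notMem_support_iff.mp hm, map_zero, map_zero]
  have hb : LB D.q D.R D.Pj D.wt g s := by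
    refine ⟨fun W P0 P1 hc => (hLB s hs hss).mem W P0 P1 (hc1 hc), ?_⟩
    rw [hV0]
    exact (hLB s hs hss).full
  have hJ : LR D.q D.R D.Pj D.z D.J g (D.w * s) := fun W P0 P1 hc => hLR s hs hss W P0 P1 (hc1 hc)
  have hrel : ∀ (W : Sp) (P0 P1 : Pj W S), (∀ i, P0.qs (g i) = P1.qs (g i)) →
      P1.qs (D.z - MvPolynomial.eval D.X Hn) - P0.qs (D.z - MvPolynomial.eval D.X Hn) -
        MvPolynomial.eval (fun b => P1.qs (D.q b) - P0.qs (D.q b)) (MvPolynomial.map P0.qs Jn) ∈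
          Id W (D.w * s) := by
    intro W P0 P1 hc
    have h2 := hpair s hs0 hss (mkPair hb hs (fun a => (h1 a).le) hJ P0 P1 hc) (fun m => by
      have h3 : P1.qs (Hn.coeff m) - P0.qs (Hn.coeff m) ∈ Id W (D.w * s) := by
        rw [hc2 hc m, sub_self]
        exact Ideal.zero_mem _
      exact h3)
    have hraw : (fun a => (mkPair hb hs (fun a => (h1 a).le) hJ P0 P1 hc).raw (Sum.inl a)) =
        fun b => (mkPair hb hs (fun a => (h1 a).le) hJ P0 P1 hc).P1.qs (D.q b) -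
          (mkPair hb hs (fun a => (h1 a).le) hJ P0 P1 hc).P0.qs (D.q b) := by
      funext a
      exact raw_inl _ a
    rw [hraw] at h2
    exact h2
  obtain ⟨Ψ, hΨ, e1, e2⟩ := untilt (q0 := c.q0 s) hb hs (fun a => (D.wpos a).le) (fun b => by rw [hDwt]; rfl) h1 hws
    (fun b => by rw [hDq]; exact hax.bx.fq s hs hzs.le b)
    (fun W P0 P1 hc b => (hax.bx.fr s W P0 P1 (fun a => hc1 hc (Sum.inl a))).1 b)
    (by
      by_contra h
      exact (hJw 0 h).1 rfl) hrel
  rw [hV] at hΨ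
  rw [hDq, hDw] at e1
  refine ⟨Ψ, hΨ, e1, fun n hn => ?_⟩
  have h2 := e2 n hn
  rw [hDq, hDw] at h2
  exact h2

end

end Pool.Agent.Helper16.THA
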